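import Pool.Agent.E8helper97.Main

/-!
# The area law when a direction of the loop lies on no cycle of strongly coupled planes
-/

set_option autoImplicit false

namespace Pool.Agent.E8helper97.Old.StrongPlaneGraphH97

open MeasureTheory Pool.Agent.E8helper97.Gauge

/-- **Area law, a direction of the loop lying on no cycle of strongly coupled planes.**
`G` is a compact group with normalised Haar measure `σ`, `π` a unitary representation of dimension
`N` on which a central element `z` acts as a scalar `ζ ≠ 1` (for instance the defining representation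
of `SU(N)`).  The edges of the graph `F` on the four coordinate directions are the planes whose
couplings may be large; `t` is a direction which lies on no cycle of `F`.  The couplings of the
plaquettes (which may depend on the place and may have any sign) are at most `B` in absolute value for
the planes which contain `t`, at most `exp (- 100 N (B + 1))` for the planes which are not edges of
`F`, and arbitrary otherwise.  Then in every box the Wilson loops of all rectangles with sides `a`,
`b` and one of the two directions equal to `t` satisfy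
`|⟨tr π(U_γ)⟩| ≤ N exp (- c a b)` with `c = exp (- 100 N (B + 1))`. -/
theorem result {G : Type} [Group G] [TopologicalSpace G] [IsTopologicalGroup G] [CompactSpace G]
    [SecondCountableTopology G] [MeasurableSpace G] [BorelSpace G]
    (σ : Measure G) [IsProbabilityMeasure σ] [σ.IsHaarMeasure]
    {N : ℕ} (π : G →* Matrix.unitaryGroup (Fin N) ℂ) (hπ : Continuous π)
    {z : G} (hz : ∀ g, z * g = g * z) {ζ : ℂ}
    (hζ : (π z : Matrix (Fin N) (Fin N) ℂ) = ζ • (1 : Matrix (Fin N) (Fin N) ℂ)) (hζ1 : ζ ≠ 1)
    (F : SimpleGraph (Fin 4)) (t : Fin 4)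
    (hF : ∀ (v : Fin 4) (γ : F.Walk v v), γ.IsCycle → t ∉ γ.support)
    (B : ℝ) (n : Fin 4 → ℕ) (β : Box n → Fin 4 → Fin 4 → ℝ)
    (h1 : ∀ x k l, k = t ∨ l = t → |β x k l| ≤ B)
    (h2 : ∀ x k l, k < l → ¬ F.Adj k l → |β x k l| ≤ Real.exp (-(100 * N * (B + 1))))
    (i j : Fin 4) (hij : i ≠ j) (ht : t = i ∨ t = j)
    (x : Box n) (a b : ℕ) (ha : (x i : ℕ) + a < n i) (hb : (x j : ℕ) + b < n j) :
    ‖expect σ π β fun U => Matrix.trace (π (rectangle U i j a b x) : Matrix (Fin N) (Fin N) ℂ)‖
      ≤ N * Real.exp (-(Real.exp (-(100 * N * (B + 1))) * (a * b))) := by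
  have hB : 0 ≤ B := (abs_nonneg _).trans (h1 x t t (Or.inl rfl))
  rcases Nat.eq_zero_or_pos N with hN | hN
  · subst hN
    refine (gauge_perc σ hπ hz hζ hζ1 β i j a b x (g := fun _ => 1) (fun _ _ _ => le_rfl)
      (fun _ => zero_le_one) fun S hS => absurd hS (lt_irrefl _)).trans ?_
    simp
  rcases ht with rfl | rfl
  · obtain ⟨g, g1, g2, g3, g4⟩ := area_tw hN (Ne.symm hij) hF hB h1 h2 x ha hb
    exact (gauge_perc σ hπ hz hζ hζ1 β t j a b x g1 g2 g3).trans
      (mul_le_mul_of_nonneg_left g4 (Nat.cast_nonneg N))
  · obtain ⟨g, g1, g2, g3, g4⟩ := area_tw hN hij hF hB h1 h2 x hb ha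
    refine (gauge_perc σ hπ hz hζ hζ1 β i t a b x g1 g2 fun S hS => (g3 S hS).swap).trans
      (mul_le_mul_of_nonneg_left (g4.trans_eq ?_) (Nat.cast_nonneg N))
    congr 1
    ring

end Pool.Agent.E8helper97.Old.StrongPlaneGraphH97
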